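import Pool.Agent.Work.MP_cabd9e_co.Img3Final
import Pool.Agent.Work.MP_cabd9e_co.Short

/-!
# Abelian squares of period at least three are avoidable over three letters

The word is the image, under a uniform map with images of length 120, of the fixed point of the
substitution `a → ace, b → adf, c → bdf, d → bdc, e → afe, f → bce` (a substitution of
M. Rao and M. Rosenfeld).
-/

namespace Pool.Agent.Results.MP_cabd9e_co.PeriodThree

/-- The factor of length `2 p` of the infinite ternary word `x` that starts at position `i` is an
abelian square of period `p`: its two halves contain each letter the same number of times. -/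
def AbelianSquareAt (x : ℕ → Fin 3) (i p : ℕ) : Prop :=
  1 ≤ p ∧ ∀ a : Fin 3, ((Finset.range p).filter (fun j => x (i + j) = a)).card =
    ((Finset.range p).filter (fun j => x (i + p + j) = a)).card

/-- Abelian squares of period at least `k` are avoidable over three letters: some infinite word
over three letters contains none of them. -/
def Avoidable (k : ℕ) : Prop :=
  ∃ x : ℕ → Fin 3, ∀ i p : ℕ, k ≤ p → ¬ AbelianSquareAt x i p

/-- Abelian squares of period at least `3` are avoidable over three letters, and those of period
at least `1` are not. Hence the least positive `k₃` such that abelian squares of period at least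
`k₃` are avoidable over three letters is `2` or `3`, and it is `3` if those of period at least `2`
are not avoidable (the lower bound `3 ≤ k₃`). -/
theorem result : Avoidable 3 ∧ ¬ Avoidable 1 ∧
    ∃ k₃ : ℕ, IsLeast {k : ℕ | 1 ≤ k ∧ Avoidable k} k₃ ∧ 2 ≤ k₃ ∧ k₃ ≤ 3 ∧
      (¬ Avoidable 2 → k₃ = 3) := by
  have h : Avoidable 3 := by
    refine ⟨Pool.Agent.Work.MP_cabd9e_co.img3.word3, fun i p hp hsq => ?_⟩
    obtain ⟨a, ha⟩ := Pool.Agent.Work.MP_cabd9e_co.img3_avoid i p hp
    exact ha (hsq.2 a)
  have h1 : ¬ Avoidable 1 := by
    rintro ⟨x, hx⟩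
    obtain ⟨i, p, hp, hsq⟩ := Pool.Agent.Work.MP_cabd9e_co.exists_square x
    exact hx i p hp ⟨hp, hsq⟩
  refine ⟨h, h1, ?_⟩
  classical
  have hne : ∃ k : ℕ, 1 ≤ k ∧ Avoidable k := ⟨3, by norm_num, h⟩
  have hs := Nat.find_spec hne
  have h2 : 2 ≤ Nat.find hne := by
    by_contra hlt
    have h3 : Nat.find hne = 1 := by have := hs.1; omega
    rw [h3] at hs
    exact h1 hs.2
  have h3 : Nat.find hne ≤ 3 := Nat.find_min' hne ⟨by norm_num, h⟩
  refine ⟨Nat.find hne, ⟨hs, fun k hk => Nat.find_min' hne hk⟩, h2, h3, fun h4 => ?_⟩
  by_contra h5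
  have h6 : Nat.find hne = 2 := by omega
  rw [h6] at hs
  exact h4 hs.2

end Pool.Agent.Results.MP_cabd9e_co.PeriodThree
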